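import Pool.Agent.Q208.WE.PUC
import Pool.Agent.Q208.WE.SDT
import Pool.Agent.Q203.WE.HB
import Pool.Agent.Q208.WE.VISC
import Pool.Agent.Q208.WE.AVG
import Pool.Agent.Q206.WE.Cut
import Pool.Agent.Q203.WE.Osc
import Pool.Agent.Q203.WE.Prod
import Pool.Agent.Q203.WE.Split
import Pool.Agent.Q190.WE.GW
import Pool.Agent.Q190.WE.STEP
import Pool.Agent.Q190.WE.KST
import Pool.Agent.Q190.WE.IND
import Pool.Agent.Q206.WE.Start
import Pool.Agent.Q203.WE.Exp
import Pool.Agent.Q206.WE.Fin

/-!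
The optimal exponent in the `W^{2,ε}` (Hessian measure) estimate for the class `S(λ,Λ)` is at most
`C_n (Λ/λ)^{1-n}` in every dimension `n ≥ 3`, for all large `Λ/λ` (MP_02db74_an, Q1: true).

Idea: `C²` functions in `S(λ,Λ)`, close to quadratic polynomials, are built by iterated lamination of
diagonal Hessians inside the open cone `{M⁻ < 0 < M⁺}`.  The share of the volume which reaches a
second derivative of size `T` is bounded below by `c T^{-C (Λ/λ)^{1-n}}`, by means of an explicit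
subsolution `(P N)^ε max(0, 1 - A ∏ g(x_l / N) / g(0))` of the dynamic programming inequality of the
lamination game, where all but one of the `n - 1` other eigenvalues are first raised to the size
`Λ/λ` relative to the last one.
-/

set_option autoImplicit false

namespace Pool.Agent.Results.MP_02db74_an.SharpOrder

open Pool.Agent.Q61.WE

/-- For every `n ≥ 3` there is `C` such that the supremum `ε*(n,λ,Λ)` of the exponents of the
Hessian measure estimate for `S(λ,Λ)` satisfies `ε*(n,λ,Λ) ≤ C (Λ/λ)^{1-n}` for all large `Λ/λ`. -/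
theorem result : ∀ n : ℕ, 3 ≤ n → ∃ C : ℝ, 0 < C ∧ ∃ L₀ : ℝ, ∀ lam Lam : ℝ, 0 < lam →
    lam ≤ Lam → L₀ ≤ Lam / lam →
    epsStar n lam Lam ≤ ENNReal.ofReal (C * (Lam / lam) ^ (1 - (n : ℝ))) := by
  have hP : S_PUC := Pool.Agent.Q208.WE.puc
  have hS : S_SDT := Pool.Agent.Q208.WE.sdt
  have hB : S_HB := Pool.Agent.Q203.WE.HB
  have hV : S_VISC := Pool.Agent.Q208.WE.visc hP hS hB
  have hT : S_THETA := Pool.Agent.Q208.WE.theta hS hB
  have hR : S_REF := Pool.Agent.Q208.WE.ref hP hB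
  have hG : S_GW := Pool.Agent.Q190.WE.t_GW
  have hSp : S_SPLIT := Pool.Agent.Q203.WE.SPLIT hP hB Pool.Agent.Q203.WE.OSC
    Pool.Agent.Q208.WE.avg Pool.Agent.Q206.WE.cut9 Pool.Agent.Q203.WE.PROD
  have hI : S_IND := Pool.Agent.Q190.WE.t_IND (Pool.Agent.Q190.WE.t_STEP hG) hSp hR
    (Pool.Agent.Q190.WE.t_KST hP)
  exact Pool.Agent.Q206.WE.fin18
    (Pool.Agent.Q203.WE.EXP (Pool.Agent.Q206.WE.start16 hI hG hR) hV hT hB)

end Pool.Agent.Results.MP_02db74_an.SharpOrder
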